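import Mathlib

set_option autoImplicit false

namespace Pool.Agent.Results.MP_06047d_an.NotSubset

/-- `x` solves `x_{n+k} = max {x_{n+k-1}, ..., x_{n+1}, 0} - x_n` for all `n`. -/
def IsSol (k : ℕ) (x : ℕ → ℝ) : Prop :=
  ∀ n, x (n + k) = Finset.fold max 0 (fun j => x (n + j)) (Finset.Ico 1 k) - x n

/-- `N` is the least period of `x`. -/
def IsPeriod (x : ℕ → ℝ) (N : ℕ) : Prop :=
  IsLeast {M : ℕ | 1 ≤ M ∧ ∀ n, x (n + M) = x n} N

/-- The set of least periods of periodic solutions. -/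
def Per (k : ℕ) : Set ℕ := {N | ∃ x : ℕ → ℝ, IsSol k x ∧ IsPeriod x N}

/-- All divisors of `2k`, the number `3k - 1`, and the combinations of `3k - 2` and `3k - 1` with
coprime coefficients (which may be zero). It contains the conjectured set of periods: `1`,
`(3 - (-1)^k)/2` (which is `1` or `2`) and `2k` divide `2k`. -/
def Target (k : ℕ) : Set ℕ :=
  {N | N ∣ 2 * k ∨ N = 3 * k - 1 ∨
    ∃ a b : ℕ, Nat.gcd a b = 1 ∧ N = (3 * k - 2) * a + (3 * k - 1) * b}

/-- All divisors of `2k`, the number `3k - 1`, and all combinations of `3k - 2` and `3k - 1` with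
nonnegative coefficients, coprime or not. -/
def BigTarget (k : ℕ) : Set ℕ :=
  {N | N ∣ 2 * k ∨ N = 3 * k - 1 ∨ ∃ a b : ℕ, N = (3 * k - 2) * a + (3 * k - 1) * b}

/-- Generic entry of row `r`. -/
def rf (r : ℕ) : ℤ := [0, 1, 1, 1, 0, 2, 0, 1, 1, 0, 2, 0].getD r 0
/-- Third entry from the end of row `r`. -/
def rA (r : ℕ) : ℤ := [0, 1, 1, 1, 0, 2, -1, 2, 0, 1, 1, 1].getD r 0
/-- Second entry from the end of row `r`. -/
def rB (r : ℕ) : ℤ := [1, 0, 2, -1, 2, 0, 1, 1, 1, 0, 2, -1].getD r 0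
/-- Last entry of row `r`. -/
def rC (r : ℕ) : ℤ := [-1, 2, 0, 1, 1, 1, 0, 2, -1, 2, 0, 1].getD r 0

/-- Entry of row `r` in column `c`. -/
def T (k r c : ℕ) : ℤ :=
  if c + 3 < k then rf r else if c + 3 = k then rA r else if c + 2 = k then rB r else rC r

/-- The periodic sequence. -/
def X (k n : ℕ) : ℤ := T k ((n % (11 * k - 1)) / k) ((n % (11 * k - 1)) % k)

theorem T_div (k r c : ℕ) (hc : c < k) : T k ((r * k + c) / k) ((r * k + c) % k) = T k r c := by
  have hk : 0 < k := by omega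
  have h1 : (r * k + c) / k = r := by
    rw [mul_comm, Nat.mul_add_div hk, Nat.div_eq_of_lt hc, add_zero]
  have h2 : (r * k + c) % k = c := by
    rw [mul_comm, Nat.mul_add_mod, Nat.mod_eq_of_lt hc]
  rw [h1, h2]

theorem X_row (k r c : ℕ) (hk : 5 ≤ k) (hr : r ≤ 11) (hc : c < k) : X k (r * k + c) = T k r c := by
  unfold X
  rcases Nat.lt_or_ge (r * k + c) (11 * k - 1) with h | h
  · rw [Nat.mod_eq_of_lt h]
    exact T_div k r c hc
  · have h1 : r * k + c < 2 * (11 * k - 1) := by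
      have : r * k ≤ 11 * k := Nat.mul_le_mul_right k hr
      omega
    have h2 : (r * k + c) % (11 * k - 1) = r * k + c - (11 * k - 1) := by
      rw [Nat.mod_eq_sub_mod h, Nat.mod_eq_of_lt (by omega)]
    rw [h2]
    have hr10 : 10 ≤ r := by
      by_contra hlt
      have : r * k ≤ 9 * k := Nat.mul_le_mul_right k (by omega)
      omega
    have hr' : r = 10 ∨ r = 11 := by omega
    rcases hr' with rfl | rfl
    · have h3 : 10 * k + c - (11 * k - 1) = 0 * k + 0 := by omega
      rw [h3, T_div k 0 0 (by omega)]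
      unfold T
      rw [if_pos (by omega), if_neg (by omega), if_neg (by omega), if_neg (by omega)]
      rfl
    · rcases Nat.lt_or_ge (c + 1) k with h4 | h4
      · have h3 : 11 * k + c - (11 * k - 1) = 0 * k + (c + 1) := by omega
        rw [h3, T_div k 0 (c + 1) h4]
        unfold T
        split_ifs <;> first | rfl | omega
      · have h3 : 11 * k + c - (11 * k - 1) = 1 * k + 0 := by omega
        rw [h3, T_div k 1 0 (by omega)]
        unfold T
        rw [if_pos (by omega), if_neg (by omega), if_neg (by omega), if_neg (by omega)]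
        rfl

theorem X_per (k n : ℕ) : X k (n + (11 * k - 1)) = X k n := by
  unfold X
  rw [Nat.add_mod_right]

theorem X_mod (k n i : ℕ) : X k (n + i) = X k (n % (11 * k - 1) + i) := by
  unfold X
  rw [Nat.add_mod, Nat.add_mod (n % (11 * k - 1)) i, Nat.mod_mod]

theorem tab1 : ∀ r < 11, rf r ≤ rf (r + 1) + rf r ∧ rA r ≤ rf (r + 1) + rf r ∧
    rB r ≤ rf (r + 1) + rf r ∧ rC r ≤ rf (r + 1) + rf r ∧ rf (r + 1) ≤ rf (r + 1) + rf r ∧
    0 ≤ rf (r + 1) + rf r ∧ (rA r = rf (r + 1) + rf r ∨ rB r = rf (r + 1) + rf r ∨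
      rC r = rf (r + 1) + rf r) := by decide

theorem tab2 : ∀ r < 11, rB r ≤ rA (r + 1) + rA r ∧ rC r ≤ rA (r + 1) + rA r ∧
    rf (r + 1) ≤ rA (r + 1) + rA r ∧ 0 ≤ rA (r + 1) + rA r ∧
    (rB r = rA (r + 1) + rA r ∨ rC r = rA (r + 1) + rA r ∨ rf (r + 1) = rA (r + 1) + rA r) := by
  decide

theorem tab3 : ∀ r < 11, rC r ≤ rB (r + 1) + rB r ∧ rf (r + 1) ≤ rB (r + 1) + rB r ∧
    rA (r + 1) ≤ rB (r + 1) + rB r ∧ 0 ≤ rB (r + 1) + rB r ∧
    (rC r = rB (r + 1) + rB r ∨ rf (r + 1) = rB (r + 1) + rB r ∨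
      rA (r + 1) = rB (r + 1) + rB r) := by
  decide

theorem tab4 : ∀ r < 11, rf (r + 1) ≤ rC (r + 1) + rC r ∧ rA (r + 1) ≤ rC (r + 1) + rC r ∧
    rB (r + 1) ≤ rC (r + 1) + rC r ∧ 0 ≤ rC (r + 1) + rC r ∧
    (rf (r + 1) = rC (r + 1) + rC r ∨ rA (r + 1) = rC (r + 1) + rC r ∨
      rB (r + 1) = rC (r + 1) + rC r) := by
  decide

theorem T_f {k r c : ℕ} (h : c + 3 < k) : T k r c = rf r := by
  unfold T; rw [if_pos h]
theorem T_A {k r c : ℕ} (h : c + 3 = k) : T k r c = rA r := by
  unfold T; rw [if_neg (by omega), if_pos h]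
theorem T_B {k r c : ℕ} (h : c + 2 = k) : T k r c = rB r := by
  unfold T; rw [if_neg (by omega), if_neg (by omega), if_pos h]
theorem T_C {k r c : ℕ} (h : c + 1 = k) : T k r c = rC r := by
  unfold T; rw [if_neg (by omega), if_neg (by omega), if_neg (by omega)]

theorem col_cases {k c : ℕ} (h : c < k) : c + 3 < k ∨ c + 3 = k ∨ c + 2 = k ∨ c + 1 = k := by
  omega

theorem key (k r j : ℕ) (hk : 5 ≤ k) (hr : r < 11) (hj : j < k) :
    0 ≤ T k (r + 1) j + T k r j ∧
    (∀ i, j < i → i < k → T k r i ≤ T k (r + 1) j + T k r j) ∧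
    (∀ i, i < j → T k (r + 1) i ≤ T k (r + 1) j + T k r j) ∧
    ((∃ i, j < i ∧ i < k ∧ T k r i = T k (r + 1) j + T k r j) ∨
      (∃ i, i < j ∧ T k (r + 1) i = T k (r + 1) j + T k r j)) := by
  rcases col_cases hj with h | h | h | h
  · obtain ⟨t1, t2, t3, t4, t5, t6, t7⟩ := tab1 r hr
    rw [T_f h, T_f h]
    refine ⟨t6, ?_, ?_, ?_⟩
    · intro i hi hik
      rcases col_cases hik with g | g | g | g
      · rw [T_f g]; exact t1
      · rw [T_A g]; exact t2
      · rw [T_B g]; exact t3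
      · rw [T_C g]; exact t4
    · intro i hi
      rw [T_f (by omega)]; exact t5
    · left
      rcases t7 with t7 | t7 | t7
      · exact ⟨k - 3, by omega, by omega, by rw [T_A (by omega)]; exact t7⟩
      · exact ⟨k - 2, by omega, by omega, by rw [T_B (by omega)]; exact t7⟩
      · exact ⟨k - 1, by omega, by omega, by rw [T_C (by omega)]; exact t7⟩
  · obtain ⟨t1, t2, t3, t4, t5⟩ := tab2 r hr
    rw [T_A h, T_A h]
    refine ⟨t4, ?_, ?_, ?_⟩
    · intro i hi hik
      rcases col_cases hik with g | g | g | g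
      · omega
      · omega
      · rw [T_B g]; exact t1
      · rw [T_C g]; exact t2
    · intro i hi
      rw [T_f (by omega)]; exact t3
    · rcases t5 with t5 | t5 | t5
      · left; exact ⟨k - 2, by omega, by omega, by rw [T_B (by omega)]; exact t5⟩
      · left; exact ⟨k - 1, by omega, by omega, by rw [T_C (by omega)]; exact t5⟩
      · right; exact ⟨0, by omega, by rw [T_f (by omega)]; exact t5⟩
  · obtain ⟨t1, t2, t3, t4, t5⟩ := tab3 r hr
    rw [T_B h, T_B h]
    refine ⟨t4, ?_, ?_, ?_⟩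
    · intro i hi hik
      rw [T_C (by omega)]; exact t1
    · intro i hi
      rcases col_cases (show i < k by omega) with g | g | g | g
      · rw [T_f g]; exact t2
      · rw [T_A g]; exact t3
      · omega
      · omega
    · rcases t5 with t5 | t5 | t5
      · left; exact ⟨k - 1, by omega, by omega, by rw [T_C (by omega)]; exact t5⟩
      · right; exact ⟨0, by omega, by rw [T_f (by omega)]; exact t5⟩
      · right; exact ⟨k - 3, by omega, by rw [T_A (by omega)]; exact t5⟩
  · obtain ⟨t1, t2, t3, t4, t5⟩ := tab4 r hr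
    rw [T_C h, T_C h]
    refine ⟨t4, ?_, ?_, ?_⟩
    · intro i hi hik
      omega
    · intro i hi
      rcases col_cases (show i < k by omega) with g | g | g | g
      · rw [T_f g]; exact t1
      · rw [T_A g]; exact t2
      · rw [T_B g]; exact t3
      · omega
    · rcases t5 with t5 | t5 | t5
      · right; exact ⟨0, by omega, by rw [T_f (by omega)]; exact t5⟩
      · right; exact ⟨k - 3, by omega, by rw [T_A (by omega)]; exact t5⟩
      · right; exact ⟨k - 2, by omega, by rw [T_B (by omega)]; exact t5⟩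

/-- The recurrence on the integer level. -/
theorem X_rec (k n : ℕ) (hk : 5 ≤ k) :
    0 ≤ X k (n + k) + X k n ∧ (∀ i, 1 ≤ i → i < k → X k (n + i) ≤ X k (n + k) + X k n) ∧
    ∃ i, 1 ≤ i ∧ i < k ∧ X k (n + i) = X k (n + k) + X k n := by
  have hmod : ∀ i, X k (n + i) = X k (n % (11 * k - 1) + i) := X_mod k n
  have hn : X k n = X k (n % (11 * k - 1)) := by simpa using X_mod k n 0
  rw [hmod k, hn]
  simp only [hmod]
  have hlt : n % (11 * k - 1) < 11 * k - 1 := Nat.mod_lt _ (by omega)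
  generalize n % (11 * k - 1) = m at hlt
  have hkpos : 0 < k := by omega
  obtain ⟨r, j, hr, hj, rfl⟩ : ∃ r j, r < 11 ∧ j < k ∧ m = r * k + j := by
    refine ⟨m / k, m % k, ?_, Nat.mod_lt _ hkpos, ?_⟩
    · exact (Nat.div_lt_iff_lt_mul hkpos).2 (by omega)
    · rw [mul_comm]; exact (Nat.div_add_mod m k).symm
  obtain ⟨k1, k2, k3, k4⟩ := key k r j hk hr hj
  have e1 : X k (r * k + j) = T k r j := X_row k r j hk (by omega) hj
  have e2 : X k (r * k + j + k) = T k (r + 1) j := by
    have : r * k + j + k = (r + 1) * k + j := by ring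
    rw [this]; exact X_row k (r + 1) j hk (by omega) hj
  have e3 : ∀ i, j + i < k → X k (r * k + j + i) = T k r (j + i) := by
    intro i hi
    rw [add_assoc]; exact X_row k r (j + i) hk (by omega) hi
  have e4 : ∀ i, i < k → k ≤ j + i → X k (r * k + j + i) = T k (r + 1) (j + i - k) := by
    intro i hi hki
    have : r * k + j + i = (r + 1) * k + (j + i - k) := by
      rw [add_mul, one_mul]; omega
    rw [this]; exact X_row k (r + 1) (j + i - k) hk (by omega) (by omega)
  rw [e1, e2]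
  refine ⟨k1, ?_, ?_⟩
  · intro i hi hik
    rcases Nat.lt_or_ge (j + i) k with h | h
    · rw [e3 i h]; exact k2 (j + i) (by omega) h
    · rw [e4 i hik h]; exact k3 (j + i - k) (by omega)
  · rcases k4 with ⟨i, hi1, hi2, hi3⟩ | ⟨i, hi1, hi2⟩
    · refine ⟨i - j, by omega, by omega, ?_⟩
      rw [e3 (i - j) (by omega)]
      have : j + (i - j) = i := by omega
      rw [this]; exact hi3
    · refine ⟨i + k - j, by omega, by omega, ?_⟩
      rw [e4 (i + k - j) (by omega) (by omega)]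
      have : j + (i + k - j) - k = i := by omega
      rw [this]; exact hi2

theorem fold_eq (s : Finset ℕ) (f : ℕ → ℝ) (S : ℝ) (h0 : 0 ≤ S) (h1 : ∀ i ∈ s, f i ≤ S)
    (h2 : ∃ i ∈ s, f i = S) : Finset.fold max 0 f s = S := by
  apply le_antisymm
  · exact (Finset.fold_max_le S).2 ⟨h0, h1⟩
  · obtain ⟨i, hi, hS⟩ := h2
    exact (Finset.le_fold_max S).2 (Or.inr ⟨i, hi, hS.ge⟩)

theorem X_sol (k : ℕ) (hk : 5 ≤ k) : IsSol k (fun n => (X k n : ℝ)) := by
  intro n
  obtain ⟨h0, h1, i, hi1, hi2, hi3⟩ := X_rec k n hk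
  have : Finset.fold max 0 (fun j => (X k (n + j) : ℝ)) (Finset.Ico 1 k) =
      (X k (n + k) : ℝ) + X k n := by
    apply fold_eq
    · exact_mod_cast h0
    · intro i hi
      rw [Finset.mem_Ico] at hi
      exact_mod_cast h1 i hi.1 hi.2
    · exact ⟨i, Finset.mem_Ico.2 ⟨hi1, hi2⟩, by exact_mod_cast hi3⟩
  simp only [this]
  ring

theorem rneg : (∀ r < 11, rf r ≠ -1) ∧ (∀ r < 11, rA r = -1 → r = 6) ∧
    (∀ r < 11, rB r = -1 → r = 3) ∧ (∀ r < 11, rC r = -1 → r = 0 ∨ r = 8) := by decide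

/-- Where the value `-1` is taken. -/
theorem X_neg (k m : ℕ) (hk : 5 ≤ k) (hm : m < 11 * k - 1) (h : X k m = -1) :
    m = k - 1 ∨ m = 4 * k - 2 ∨ m = 7 * k - 3 ∨ m = 9 * k - 1 := by
  have hkpos : 0 < k := by omega
  obtain ⟨r, j, hr, hj, rfl⟩ : ∃ r j, r < 11 ∧ j < k ∧ m = r * k + j := by
    refine ⟨m / k, m % k, ?_, Nat.mod_lt _ hkpos, ?_⟩
    · exact (Nat.div_lt_iff_lt_mul hkpos).2 (by omega)
    · rw [mul_comm]; exact (Nat.div_add_mod m k).symm
  rw [X_row k r j hk (by omega) hj] at h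
  obtain ⟨n1, n2, n3, n4⟩ := rneg
  rcases col_cases hj with g | g | g | g
  · rw [T_f g] at h
    exact absurd h (n1 r hr)
  · rw [T_A g] at h
    have := n2 r hr h
    subst this
    omega
  · rw [T_B g] at h
    have := n3 r hr h
    subst this
    omega
  · rw [T_C g] at h
    rcases n4 r hr h with rfl | rfl
    · omega
    · omega

theorem X_least (k M : ℕ) (hk : 5 ≤ k) (hM1 : 1 ≤ M) (hM : ∀ n, X k (n + M) = X k n) :
    11 * k - 1 ≤ M := by
  by_contra hlt
  push Not at hlt
  have a0 : X k (k - 1) = -1 := by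
    have := X_row k 0 (k - 1) hk (by omega) (by omega)
    rw [T_C (by omega), zero_mul, zero_add] at this
    exact this
  have a1 : X k 0 = 0 := by
    have := X_row k 0 0 hk (by omega) (by omega)
    rw [T_f (by omega), zero_mul, zero_add] at this
    exact this
  have a2 : X k 1 = 0 := by
    have := X_row k 0 1 hk (by omega) (by omega)
    rw [T_f (by omega), zero_mul, zero_add] at this
    exact this
  have b := hM (k - 1)
  rw [a0] at b
  have c0 := hM 0
  have c1 := hM 1
  rw [a1, zero_add] at c0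
  rw [a2] at c1
  rcases Nat.lt_or_ge (k - 1 + M) (11 * k - 1) with h | h
  · rcases X_neg k (k - 1 + M) hk h b with g | g | g | g
    · omega
    · have hM' : M = 3 * k - 1 := by omega
      have := X_row k 3 0 hk (by omega) (by omega)
      rw [T_f (by omega)] at this
      have e : 1 + M = 3 * k + 0 := by omega
      rw [e, this] at c1
      exact absurd c1 (by decide)
    · have hM' : M = 6 * k - 2 := by omega
      have := X_row k 5 (k - 1) hk (by omega) (by omega)
      rw [T_C (by omega)] at this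
      have e : 1 + M = 5 * k + (k - 1) := by omega
      rw [e, this] at c1
      exact absurd c1 (by decide)
    · have hM' : M = 8 * k := by omega
      have := X_row k 8 0 hk (by omega) (by omega)
      rw [T_f (by omega)] at this
      have e : M = 8 * k + 0 := by omega
      rw [e, this] at c0
      exact absurd c0 (by decide)
  · have e : k - 1 + M = (k - 1 + M - (11 * k - 1)) + (11 * k - 1) := by omega
    rw [e, X_per] at b
    rcases X_neg k _ hk (by omega) b with g | g | g | g <;> omega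

theorem per_big (k : ℕ) (hk : 5 ≤ k) : 11 * k - 1 ∈ Per k := by
  refine ⟨fun n => (X k n : ℝ), X_sol k hk, ⟨by omega, ?_⟩, ?_⟩
  · intro n
    exact congrArg (fun t : ℤ => (t : ℝ)) (X_per k n)
  · rintro M ⟨hM1, hM⟩
    apply X_least k M hk hM1
    intro n
    exact Int.cast_injective (hM n)

/-- The periodic sequence with period block `l`. -/
def sq (l : List ℤ) (n : ℕ) : ℤ := l.getD (n % l.length) 0

theorem sq_mod (l : List ℤ) (n i : ℕ) : sq l (n + i) = sq l (n % l.length + i) := by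
  unfold sq
  rw [Nat.add_mod, Nat.add_mod (n % l.length) i, Nat.mod_mod]

theorem sq_per (l : List ℤ) (n : ℕ) : sq l (n + l.length) = sq l n := by
  unfold sq
  rw [Nat.add_mod_right]

/-- The recurrence and the minimality of the period, checked on one block. -/
theorem per_list (k : ℕ) (l : List ℤ) (hl : 0 < l.length)
    (h : ∀ r < l.length, 0 ≤ sq l (r + k) + sq l r ∧
      (∀ i < k, 1 ≤ i → sq l (r + i) ≤ sq l (r + k) + sq l r) ∧
      ∃ i < k, 1 ≤ i ∧ sq l (r + i) = sq l (r + k) + sq l r)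
    (hm : ∀ M < l.length, 1 ≤ M → ∃ n < l.length, sq l (n + M) ≠ sq l n) :
    l.length ∈ Per k := by
  refine ⟨fun n => (sq l n : ℝ), ?_, ⟨hl, ?_⟩, ?_⟩
  · intro n
    have hr : n % l.length < l.length := Nat.mod_lt _ hl
    obtain ⟨h0, h1, i, hi1, hi2, hi3⟩ := h _ hr
    have e0 : sq l (n % l.length) = sq l n := by simpa using (sq_mod l n 0).symm
    rw [← sq_mod l n k, e0] at h0 h1 hi3
    rw [← sq_mod l n i] at hi3
    have : Finset.fold max 0 (fun j => (sq l (n + j) : ℝ)) (Finset.Ico 1 k) =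
        (sq l (n + k) : ℝ) + sq l n := by
      apply fold_eq
      · exact_mod_cast h0
      · intro j hj
        rw [Finset.mem_Ico] at hj
        have := h1 j hj.2 hj.1
        rw [← sq_mod l n j] at this
        exact_mod_cast this
      · exact ⟨i, Finset.mem_Ico.2 ⟨hi2, hi1⟩, by exact_mod_cast hi3⟩
    simp only [this]
    ring
  · intro n
    exact congrArg (fun t : ℤ => (t : ℝ)) (sq_per l n)
  · rintro M ⟨hM1, hM⟩
    by_contra hlt
    push Not at hlt
    obtain ⟨n, -, hn⟩ := hm M hlt hM1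
    exact hn (Int.cast_injective (hM n))

/-- One period, of length 99, of a solution for `k = 6`. -/
def l6 : List ℤ :=
  [-1, -1, -1, 0, 1, 0, 2, 3, 4, 4, 3, 4, 2, 1, 0, 0, 1, -2, -1, 0, 1, 1, 0, 3, 4, 4, 3, 3, 4,
   1, 0, 0, 1, 1, -3, 0, 1, 1, 0, 0, 4, 4, 3, 3, 4, 4, 0, 0, 1, 1, 0, -3, 1, 1, 0, 0, 1, 4, 3,
   3, 4, 4, 3, 0, 1, 1, 0, -1, -2, 1, 0, 0, 1, 2, 4, 3, 4, 4, 3, 2, 0, 1, 0, -1, -1, -1, 1, 0,
   1, 2, 3, 4, 3, 4, 3, 2, 1, 0, 1]

/-- One period, of length 94, of a solution for `k = 7`. -/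
def l7 : List ℤ :=
  [2, 0, 1, 3, 3, 0, -1, 1, 3, 2, 0, 0, 3, 4, 3, 1, 2, 4, 4, 1, 0, 1, 3, 2, 0, -1, 2, 3, 2, 0,
   1, 3, 4, 2, 1, 2, 4, 3, 1, 0, 2, 3, 2, -1, 0, 2, 3, 1, 0, 1, 4, 4, 2, 1, 3, 4, 3, 0, 0, 2,
   3, 1, -1, 0, 3, 3, 1, 0, 2, 4, 4, 1, 1, 3, 4, 2, 0, 0, 3, 3, 1, -1, 1, 3, 3, 0, 0, 2, 4, 3,
   1, 1, 4, 4]

theorem per_six : 99 ∈ Per 6 :=
  per_list 6 l6 (by decide +kernel) (by decide +kernel) (by decide +kernel)

theorem per_seven : 94 ∈ Per 7 :=
  per_list 7 l7 (by decide +kernel) (by decide +kernel) (by decide +kernel)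

/-- `11k - 1` is outside of the big set for `k ≥ 8`. -/
theorem not_big (k : ℕ) (hk : 8 ≤ k) : 11 * k - 1 ∉ BigTarget k := by
  rintro (h | h | ⟨a, b, h⟩)
  · have := Nat.le_of_dvd (by omega) h
    omega
  · omega
  · obtain ⟨m, rfl⟩ : ∃ m, k = m + 8 := ⟨k - 8, by omega⟩
    have e1 : 3 * (m + 8) - 2 = 3 * m + 22 := by omega
    have e2 : 3 * (m + 8) - 1 = 3 * m + 23 := by omega
    have e3 : 11 * (m + 8) - 1 = 11 * m + 87 := by omega
    rw [e1, e2, e3] at h
    have hs : a + b ≤ 3 := by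
      by_contra hc
      push Not at hc
      have : (3 * m + 22) * 4 ≤ (3 * m + 22) * a + (3 * m + 23) * b := by nlinarith
      omega
    have hb : b ≤ 3 := by omega
    have ha : a ≤ 3 := by omega
    interval_cases a <;> interval_cases b <;> omega

theorem not_seven : 94 ∉ BigTarget 7 := by
  rintro (h | h | ⟨a, b, h⟩)
  · revert h; decide
  · omega
  · omega

theorem not_six : 99 ∉ Target 6 := by
  rintro (h | h | ⟨a, b, hab, h⟩)
  · revert h; decide
  · omega
  · have ha : a ≤ 6 := by omega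
    have hb : b ≤ 5 := by omega
    interval_cases a <;> interval_cases b <;> first | omega | (exfalso; revert hab; decide)

theorem not_five : 54 ∉ Target 5 := by
  rintro (h | h | ⟨a, b, hab, h⟩)
  · revert h; decide
  · omega
  · have ha : a ≤ 4 := by omega
    have hb : b ≤ 3 := by omega
    interval_cases a <;> interval_cases b <;> first | omega | (exfalso; revert hab; decide)

/-- For every `k ≥ 5` the set of periods is not contained in the conjectured set, not even if all
divisors of `2k` are added to it and the coefficients may be zero; for every `k ≥ 7` this stays true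
if also the coprimality condition is dropped. -/
theorem result : (∀ k : ℕ, 5 ≤ k → ¬ (Per k ⊆ Target k)) ∧
    (∀ k : ℕ, 7 ≤ k → ¬ (Per k ⊆ BigTarget k)) := by
  have hbig : ∀ k : ℕ, 7 ≤ k → ¬ (Per k ⊆ BigTarget k) := by
    intro k hk hsub
    rcases Nat.lt_or_ge k 8 with h | h
    · obtain rfl : k = 7 := by omega
      exact not_seven (hsub per_seven)
    · exact not_big k h (hsub (per_big k (by omega)))
  refine ⟨?_, hbig⟩
  intro k hk hsub
  rcases Nat.lt_or_ge k 7 with h | h
  · have h2 : k = 5 ∨ k = 6 := by omega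
    rcases h2 with rfl | rfl
    · exact not_five (hsub (per_big 5 le_rfl))
    · exact not_six (hsub per_six)
  · refine hbig k h (hsub.trans ?_)
    rintro N (h1 | h1 | ⟨a, b, -, h1⟩)
    · exact Or.inl h1
    · exact Or.inr (Or.inl h1)
    · exact Or.inr (Or.inr ⟨a, b, h1⟩)

end Pool.Agent.Results.MP_06047d_an.NotSubset
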